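import Pool.Agent.Q47.Pan.Final
import Pool.Agent.Q47.Pan.NodesG2
import Pool.Agent.Q47.Pan.NodesF4
import Pool.Agent.Q47.Pan.NodesE6
import Pool.Agent.Q47.Pan.NodesE7
import Pool.Agent.Q47.Pan.NodesE8_0
import Pool.Agent.Q47.Pan.NodesE8_1
import Pool.Agent.Q47.Pan.NodesE8_2
import Pool.Agent.Q47.Pan.NodesE8_3
import Pool.Agent.Q47.Pan.NodesE8_4
import Pool.Agent.Q47.Pan.NodesE8_5
import Pool.Agent.Q47.Pan.NodesE8_6
import Pool.Agent.Q47.Pan.NodesE8_7

/-!
# Orbit averages of antichain sizes in the root posets `Δ(1)`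

For every simple complex Lie algebra and every 1-standard `ℤ`-grading, every orbit of the
reverse operator on the antichains of `Δ(1)` has average antichain size
`#Δ(1) / (d₁ + 1)`, where `d₁` is the largest height in `Δ(1)`.
-/

namespace Pool.Agent.Results.MP_f8f4ef_co.OrbitAverages

open Set Pool.Q47.Pan

/-- The Cartan matrices of the simple complex Lie algebras (Bourbaki's numbering, matrices of
Mathlib). -/
inductive IsSimpleType : (n : ℕ) → Matrix (Fin n) (Fin n) ℤ → Prop
  | A (n : ℕ) : 1 ≤ n → IsSimpleType n (CartanMatrix.A n)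
  | B (n : ℕ) : 2 ≤ n → IsSimpleType n (CartanMatrix.B n)
  | C (n : ℕ) : 2 ≤ n → IsSimpleType n (CartanMatrix.C n)
  | D (n : ℕ) : 4 ≤ n → IsSimpleType n (CartanMatrix.D n)
  | E6 : IsSimpleType 6 CartanMatrix.E₆
  | E7 : IsSimpleType 7 CartanMatrix.E₇
  | E8 : IsSimpleType 8 CartanMatrix.E₈
  | F4 : IsSimpleType 4 CartanMatrix.F₄
  | G2 : IsSimpleType 2 CartanMatrix.G₂

theorem fine_all {n : ℕ} {M : Matrix (Fin n) (Fin n) ℤ} (hM : IsSimpleType n M) (i : Fin n) :
    Fine M i := by
  cases hM with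
  | A _ h => exact fineA i.2
  | B _ h => exact fineB h i.2
  | C _ h =>
    by_cases c : (i : ℕ) + 1 < n
    · exact fineC c
    · have : i = ⟨n - 1, by omega⟩ := Fin.ext (by simp only; omega)
      rw [this]
      exact fineCS h
  | D _ h =>
    by_cases c : (i : ℕ) + 2 < n
    · exact fineD h c
    · by_cases c' : (i : ℕ) + 2 = n
      · have : i = ⟨n - 2, by omega⟩ := Fin.ext (by simp only; omega)
        rw [this]
        exact fineT' h
      · have : i = ⟨n - 1, by omega⟩ := Fin.ext (by simp only; omega)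
        rw [this]
        exact fineT h
  | E6 =>
    fin_cases i
    · exact fineE6_0
    · exact fineE6_1
    · exact fineE6_2
    · exact fineE6_3
    · exact fineE6_4
    · exact fineE6_5
  | E7 =>
    fin_cases i
    · exact fineE7_0
    · exact fineE7_1
    · exact fineE7_2
    · exact fineE7_3
    · exact fineE7_4
    · exact fineE7_5
    · exact fineE7_6
  | E8 =>
    fin_cases i
    · exact fineE8_0
    · exact fineE8_1
    · exact fineE8_2
    · exact fineE8_3
    · exact fineE8_4
    · exact fineE8_5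
    · exact fineE8_6
    · exact fineE8_7
  | F4 =>
    fin_cases i
    · exact fineF4_0
    · exact fineF4_1
    · exact fineF4_2
    · exact fineF4_3
  | G2 =>
    fin_cases i
    · exact fineG2_0
    · exact fineG2_1

/-- Let `M` be the Cartan matrix of a simple complex Lie algebra and `i` a node. The set
`Δ(1)` of roots with coefficient `1` at `α_i` is finite, the reverse operator is a bijection of
its antichains, and for every antichain `A` of `Δ(1)` the average of `#B` over the orbit of `A`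
is `#Δ(1) / (d₁ + 1)`, where `d₁` is the largest height of an element of `Δ(1)`. -/
theorem result {n : ℕ} (M : Matrix (Fin n) (Fin n) ℤ) (hM : IsSimpleType n M) (i : Fin n) :
    (Delta1 M i).Finite ∧
    BijOn (Rev (Delta1 M i)) (Antichains (Delta1 M i)) (Antichains (Delta1 M i)) ∧
    ∃ d₁ : ℤ, IsGreatest (ht '' Delta1 M i) d₁ ∧
      ∀ A ∈ Antichains (Delta1 M i), (orbit (Delta1 M i) A).Finite ∧
        (∑ᶠ B ∈ orbit (Delta1 M i) A, (B.ncard : ℚ)) / ((orbit (Delta1 M i) A).ncard : ℚ) =
          ((Delta1 M i).ncard : ℚ) / ((d₁ : ℚ) + 1) := by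
  obtain ⟨N, hN, hfin, hgr, hG⟩ := fine_all hM i
  refine ⟨hfin, Rev_bijOn hfin, (N : ℤ) - 1, hgr, fun A hA => ?_⟩
  obtain ⟨h1, h2⟩ := orbit_average hN hfin hG hA
  refine ⟨h1, ?_⟩
  rw [h2]
  push_cast
  rw [sub_add_cancel]

end Pool.Agent.Results.MP_f8f4ef_co.OrbitAverages
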